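import Mathlib

/-!
# The settle and drop process

A state consists of an orientation (`inn v` is the set of the neighbours from which the edge is
directed into `v`) and of a base `b v ≤ |inn v|`.  In a slot of class `c` an edge of class `c`
directed into `x` may be reversed if its other end `y` satisfies `b y + 1 = b x`, `x` has excess
(`b x < |inn x|`) and `y` has none; the edges that are reversed form a matching.  Afterwards every
node with excess all of whose in-neighbours have base at least its own raises its base by one.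
-/

namespace HEO70

open Classical

/-- The states of the process. -/
structure St where
  inn : ℕ → Finset ℕ
  b : ℕ → ℕ

/-- The excess. -/
def exc (s : St) (v : ℕ) : ℕ := (s.inn v).card - s.b v

/-- Candidates of `y` for a request. -/
noncomputable def cand (N : ℕ → Finset ℕ) (kc : ℕ → ℕ → ℕ) (s : St) (c y : ℕ) : Finset ℕ :=
  (N y).filter (fun x => y ∈ s.inn x ∧ s.b x = s.b y + 1 ∧ 0 < exc s x ∧ kc y x = c)

/-- The request of `y`. -/
noncomputable def req (N : ℕ → Finset ℕ) (kc : ℕ → ℕ → ℕ) (s : St) (c y : ℕ) : Option ℕ :=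
  if h : exc s y = 0 ∧ (cand N kc s c y).Nonempty then some ((cand N kc s c y).min' h.2) else none

/-- The requests received by `x`. -/
noncomputable def rs (N : ℕ → Finset ℕ) (kc : ℕ → ℕ → ℕ) (s : St) (c x : ℕ) : Finset ℕ :=
  (N x).filter (fun y => req N kc s c y = some x)

/-- The node to which `x` gives. -/
noncomputable def grant (N : ℕ → Finset ℕ) (kc : ℕ → ℕ → ℕ) (s : St) (c x : ℕ) : Option ℕ :=
  if h : (rs N kc s c x).Nonempty then some ((rs N kc s c x).min' h) else none

/-- The orientation after the reversals. -/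
noncomputable def inn1 (N : ℕ → Finset ℕ) (kc : ℕ → ℕ → ℕ) (s : St) (c v : ℕ) : Finset ℕ :=
  (s.inn v).filter (fun w => grant N kc s c v ≠ some w) ∪
    (N v).filter (fun w => grant N kc s c w = some v)

/-- One slot. -/
noncomputable def step (N : ℕ → Finset ℕ) (kc : ℕ → ℕ → ℕ) (s : St) (c : ℕ) : St :=
  ⟨inn1 N kc s c, fun v => if s.b v < (inn1 N kc s c v).card ∧ ∀ w ∈ inn1 N kc s c v,
    s.b v ≤ s.b w then s.b v + 1 else s.b v⟩

theorem step_b (N : ℕ → Finset ℕ) (kc : ℕ → ℕ → ℕ) (s : St) (c v : ℕ) :
    (step N kc s c).b v = if s.b v < (inn1 N kc s c v).card ∧ ∀ w ∈ inn1 N kc s c v,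
    s.b v ≤ s.b w then s.b v + 1 else s.b v := rfl

theorem step_inn (N : ℕ → Finset ℕ) (kc : ℕ → ℕ → ℕ) (s : St) (c v : ℕ) :
    (step N kc s c).inn v = inn1 N kc s c v := rfl

/-- The process. -/
noncomputable def sts (N : ℕ → Finset ℕ) (kc : ℕ → ℕ → ℕ) (q : ℕ) : ℕ → St
  | 0 => ⟨fun v => (N v).filter (fun w => w < v), fun _ => 0⟩
  | t + 1 => step N kc (sts N kc q t) (t % q)

/-- The hypotheses on the graph. -/
structure GoodN (N : ℕ → Finset ℕ) : Prop where
  symm : ∀ u v, u ∈ N v → v ∈ N u
  irr : ∀ v, v ∉ N v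

/-- The invariants. -/
structure Inv (N : ℕ → Finset ℕ) (s : St) : Prop where
  sub : ∀ v, s.inn v ⊆ N v
  ori : ∀ u v, u ∈ N v → (u ∈ s.inn v ↔ v ∉ s.inn u)
  ble : ∀ v, s.b v ≤ (s.inn v).card
  lip : ∀ v, ∀ w ∈ s.inn v, s.b v ≤ s.b w + 1

section one

variable {N : ℕ → Finset ℕ} {kc : ℕ → ℕ → ℕ} {s : St} {c : ℕ}

theorem grant_spec {x y : ℕ} (h : grant N kc s c x = some y) :
    y ∈ N x ∧ req N kc s c y = some x := by
  unfold grant at h
  split_ifs at h with h1
  have h2 := (rs N kc s c x).min'_mem h1
  simp only [Option.some.injEq] at h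
  rw [h] at h2
  unfold rs at h2
  exact Finset.mem_filter.1 h2

theorem req_spec {x y : ℕ} (h : req N kc s c y = some x) :
    exc s y = 0 ∧ x ∈ N y ∧ y ∈ s.inn x ∧ s.b x = s.b y + 1 ∧ 0 < exc s x ∧ kc y x = c := by
  unfold req at h
  split_ifs at h with h1
  have h2 := (cand N kc s c y).min'_mem h1.2
  simp only [Option.some.injEq] at h
  rw [h] at h2
  unfold cand at h2
  exact ⟨h1.1, Finset.mem_filter.1 h2⟩

/-- The facts on an edge that is reversed. -/
theorem gives_spec {x y : ℕ} (h : grant N kc s c x = some y) :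
    exc s y = 0 ∧ x ∈ N y ∧ y ∈ N x ∧ y ∈ s.inn x ∧ s.b x = s.b y + 1 ∧ 0 < exc s x ∧
      kc y x = c := by
  obtain ⟨h1, h2⟩ := grant_spec h
  obtain ⟨h3, h4, h5, h6, h7, h8⟩ := req_spec h2
  exact ⟨h3, h4, h1, h5, h6, h7, h8⟩

theorem giver_unique {x x' y : ℕ} (h : grant N kc s c x = some y)
    (h' : grant N kc s c x' = some y) : x = x' := by
  have h1 := (grant_spec h).2
  have h2 := (grant_spec h').2
  rw [h1] at h2
  simpa using h2

/-- A node without excess which has a candidate makes a request which makes the receiver give. -/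
theorem exists_grant (hN : GoodN N) {x y : ℕ} (hy : exc s y = 0) (hx : x ∈ cand N kc s c y) :
    ∃ x' z, x' ∈ cand N kc s c y ∧ grant N kc s c x' = some z := by
  have hne : (cand N kc s c y).Nonempty := ⟨x, hx⟩
  have hr : req N kc s c y = some ((cand N kc s c y).min' hne) := by
    unfold req
    rw [dif_pos ⟨hy, hne⟩]
  have hmem := (cand N kc s c y).min'_mem hne
  have hNy : (cand N kc s c y).min' hne ∈ N y := by
    have := hmem
    unfold cand at this
    exact (Finset.mem_filter.1 this).1
  have hrs : y ∈ rs N kc s c ((cand N kc s c y).min' hne) := by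
    unfold rs
    exact Finset.mem_filter.2 ⟨hN.symm _ _ hNy, hr⟩
  refine ⟨(cand N kc s c y).min' hne, (rs N kc s c ((cand N kc s c y).min' hne)).min' ⟨y, hrs⟩,
    hmem, ?_⟩
  unfold grant
  rw [dif_pos ⟨y, hrs⟩]

variable (hN : GoodN N) (hI : Inv N s)

include hN hI

theorem inn1_of_gives {v y : ℕ} (h : grant N kc s c v = some y) :
    inn1 N kc s c v = (s.inn v).erase y := by
  obtain ⟨h1, h2, h3, h4, h5, h6, h7⟩ := gives_spec h
  ext w
  unfold inn1
  rw [Finset.mem_union, Finset.mem_filter, Finset.mem_filter, Finset.mem_erase]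
  constructor
  · rintro (⟨hw, hne⟩ | ⟨hw, hg⟩)
    · refine ⟨fun e => hne (e ▸ h), hw⟩
    · have := (gives_spec hg).1
      omega
  · rintro ⟨hne, hw⟩
    left
    refine ⟨hw, fun e => hne ?_⟩
    rw [h] at e
    simpa using e.symm

theorem inn1_of_recv {x v : ℕ} (h : grant N kc s c x = some v) :
    inn1 N kc s c v = insert x (s.inn v) := by
  obtain ⟨h1, h2, h3, h4, h5, h6, h7⟩ := gives_spec h
  have hng : ∀ y, grant N kc s c v ≠ some y := by
    intro y hy
    have := (gives_spec hy).2.2.2.2.2.1
    omega
  ext w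
  unfold inn1
  rw [Finset.mem_union, Finset.mem_filter, Finset.mem_filter, Finset.mem_insert]
  constructor
  · rintro (⟨hw, hne⟩ | ⟨hw, hg⟩)
    · exact Or.inr hw
    · exact Or.inl (giver_unique hg h)
  · rintro (hw | hw)
    · right
      rw [hw]
      exact ⟨h2, h⟩
    · left
      exact ⟨hw, hng w⟩

theorem inn1_of_none {v : ℕ} (h : ∀ y, grant N kc s c v ≠ some y)
    (h' : ∀ x, grant N kc s c x ≠ some v) : inn1 N kc s c v = s.inn v := by
  ext w
  unfold inn1
  rw [Finset.mem_union, Finset.mem_filter, Finset.mem_filter]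
  constructor
  · rintro (⟨hw, hne⟩ | ⟨hw, hg⟩)
    · exact hw
    · exact absurd hg (h' w)
  · intro hw
    exact Or.inl ⟨hw, h w⟩

/-- Membership in the new orientation. -/
theorem mem_inn1 {v w : ℕ} : w ∈ inn1 N kc s c v ↔
    (w ∈ s.inn v ∧ grant N kc s c v ≠ some w) ∨ grant N kc s c w = some v := by
  unfold inn1
  rw [Finset.mem_union, Finset.mem_filter, Finset.mem_filter]
  constructor
  · rintro (h | h)
    · exact Or.inl h
    · exact Or.inr h.2
  · rintro (h | h)
    · exact Or.inl h
    · exact Or.inr ⟨(gives_spec h).2.1, h⟩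

theorem card_inn1_ge (v : ℕ) : s.b v ≤ (inn1 N kc s c v).card := by
  by_cases h : ∃ y, grant N kc s c v = some y
  · obtain ⟨y, hy⟩ := h
    obtain ⟨h1, h2, h3, h4, h5, h6, h7⟩ := gives_spec hy
    rw [inn1_of_gives hN hI hy, Finset.card_erase_of_mem h4]
    unfold exc at h6
    omega
  · push Not at h
    by_cases h' : ∃ x, grant N kc s c x = some v
    · obtain ⟨x, hx⟩ := h'
      rw [inn1_of_recv hN hI hx]
      exact le_trans (hI.ble v) (Finset.card_le_card (Finset.subset_insert _ _))
    · push Not at h'
      rw [inn1_of_none hN hI h h']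
      exact hI.ble v

theorem inv_step : Inv N (step N kc s c) where
  sub := by
    intro v w hw
    have hw' : w ∈ inn1 N kc s c v := hw
    rw [mem_inn1 hN hI] at hw'
    rcases hw' with h | h
    · exact hI.sub v h.1
    · exact (gives_spec h).2.1
  ori := by
    intro u v huv
    show u ∈ inn1 N kc s c v ↔ v ∉ inn1 N kc s c u
    rw [mem_inn1 hN hI, mem_inn1 hN hI]
    have hori := hI.ori u v huv
    have e1 : grant N kc s c u = some v → v ∈ s.inn u := fun h => (gives_spec h).2.2.2.1
    have e2 : grant N kc s c v = some u → u ∈ s.inn v := fun h => (gives_spec h).2.2.2.1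
    tauto
  ble := by
    intro v
    rw [step_b, step_inn]
    split_ifs with h
    · exact h.1
    · exact card_inn1_ge hN hI v
  lip := by
    intro v w hw
    have hw' : w ∈ inn1 N kc s c v := hw
    have hbw : s.b w ≤ (step N kc s c).b w := by
      rw [step_b]
      split_ifs <;> omega
    rw [step_b N kc s c v]
    split_ifs with h
    · have := h.2 w hw'
      omega
    · rw [mem_inn1 hN hI] at hw'
      rcases hw' with h1 | h1
      · have := hI.lip v w h1.1
        omega
      · have := (gives_spec h1).2.2.2.2.1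
        omega

omit hN hI in
theorem b_mono (v : ℕ) : s.b v ≤ (step N kc s c).b v := by
  rw [step_b]
  split_ifs <;> omega

omit hN hI in
theorem b_succ_le (v : ℕ) : (step N kc s c).b v ≤ s.b v + 1 := by
  rw [step_b]
  split_ifs <;> omega

/-- A node with excess that does not give keeps its in-neighbours. -/
theorem inn_keep {v : ℕ} (he : 0 < exc s v) (h : ∀ y, grant N kc s c v ≠ some y) :
    (step N kc s c).inn v = s.inn v := by
  apply inn1_of_none hN hI h
  intro x hx
  have := (gives_spec hx).1
  omega

/-- A node with excess that neither gives nor settles has an in-neighbour of smaller base. -/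
theorem exists_lower {v : ℕ} (he : 0 < exc s v) (h : ∀ y, grant N kc s c v ≠ some y)
    (hb : (step N kc s c).b v = s.b v) : ∃ w ∈ s.inn v, s.b w < s.b v := by
  by_contra hcon
  push Not at hcon
  have hk : inn1 N kc s c v = s.inn v := inn_keep hN hI he h
  have hb' := hb
  rw [step_b, hk] at hb'
  rw [if_pos ⟨by unfold exc at he; omega, fun w hw => hcon w hw⟩] at hb'
  omega

/-- A node without excess that receives nothing does not change. -/
theorem idle_keep {v : ℕ} (he : exc s v = 0) (h : ∀ x, grant N kc s c x ≠ some v) :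
    (step N kc s c).inn v = s.inn v ∧ (step N kc s c).b v = s.b v := by
  have h1 : ∀ y, grant N kc s c v ≠ some y := by
    intro y hy
    have := (gives_spec hy).2.2.2.2.2.1
    omega
  have hk : inn1 N kc s c v = s.inn v := inn1_of_none hN hI h1 h
  refine ⟨hk, ?_⟩
  rw [step_b, hk, if_neg]
  intro hc
  unfold exc at he
  omega

end one

/-! ### the run -/

section run

variable {N : ℕ → Finset ℕ} {kc : ℕ → ℕ → ℕ} {q : ℕ} (hN : GoodN N)

include hN

theorem inv_sts (t : ℕ) : Inv N (sts N kc q t) := by
  induction t with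
  | zero =>
    refine ⟨?_, ?_, ?_, ?_⟩
    · intro v
      exact Finset.filter_subset _ _
    · intro u v huv
      show u ∈ (N v).filter (fun w => w < v) ↔ v ∉ (N u).filter (fun w => w < u)
      rw [Finset.mem_filter, Finset.mem_filter]
      have h1 := hN.symm u v huv
      have h2 : u ≠ v := by
        rintro rfl
        exact hN.irr u huv
      constructor
      · rintro ⟨_, h3⟩ ⟨_, h4⟩
        omega
      · intro h3
        refine ⟨huv, ?_⟩
        by_contra h4
        exact h3 ⟨h1, by omega⟩
    · intro v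
      exact Nat.zero_le _
    · intro v w _
      exact Nat.zero_le _
  | succ t ih => exact inv_step hN ih

/-- `x` gives to `y` in slot `t`. -/
def ev (N : ℕ → Finset ℕ) (kc : ℕ → ℕ → ℕ) (q t x y : ℕ) : Prop :=
  grant N kc (sts N kc q t) (t % q) x = some y

omit hN in
theorem base_mono {t t' : ℕ} (h : t ≤ t') (v : ℕ) :
    (sts N kc q t).b v ≤ (sts N kc q t').b v := by
  induction t', h using Nat.le_induction with
  | base => exact le_refl _
  | succ t' _ ih => exact le_trans ih (b_mono v)

/-- In-neighbours of smaller base only disappear while the base is constant. -/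
theorem lower_mono {t t' v w : ℕ} (h : t ≤ t')
    (hb : (sts N kc q t').b v = (sts N kc q t).b v)
    (hw : w ∈ (sts N kc q t').inn v) (hlt : (sts N kc q t').b w < (sts N kc q t').b v) :
    w ∈ (sts N kc q t).inn v := by
  induction t', h using Nat.le_induction with
  | base => exact hw
  | succ t' htt ih =>
    have h1 : (sts N kc q t).b v ≤ (sts N kc q t').b v := base_mono htt v
    have h2 : (sts N kc q t').b v ≤ (sts N kc q (t' + 1)).b v := b_mono v
    have h3 : (sts N kc q t').b w ≤ (sts N kc q (t' + 1)).b w := b_mono w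
    have hI := inv_sts (kc := kc) (q := q) hN t'
    apply ih (by omega)
    · have hw' : w ∈ inn1 N kc (sts N kc q t') (t' % q) v := hw
      rw [mem_inn1 hN hI] at hw'
      rcases hw' with h4 | h4
      · exact h4.1
      · have := (gives_spec h4).2.2.2.2.1
        omega
    · omega

/-- The number of slots in which `v` gives while its base is `k` and the slot is of class `c`. -/
theorem card_exit_class {d D : ℕ} (hD : ∀ v c, c < q → ((N v).filter (fun w => kc v w = c)).card ≤ D)
    (hkc : ∀ v w, w ∈ N v → kc v w = kc w v) (hq : 0 < q) (hd : ∀ v, (N v).card ≤ d)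
    (τ v k c : ℕ) :
    ((Finset.range τ).filter (fun t => (sts N kc q t).b v = k ∧ t % q = c ∧
      ∃ y, ev N kc q t v y)).card ≤ D ∧
    ((Finset.range τ).filter (fun t => (sts N kc q t).b v = k ∧
      ∃ y, ev N kc q t v y)).card ≤ d := by
  set g : ℕ → ℕ := fun t => (grant N kc (sts N kc q t) (t % q) v).getD 0 with hg
  have hgv : ∀ t y, ev N kc q t v y → g t = y := by
    intro t y h
    unfold ev at h
    rw [hg]
    simp only [h, Option.getD_some]
  -- injectivity
  have hinj : ∀ t t', t < t' → (sts N kc q t).b v = k → (sts N kc q t').b v = k →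
      (∃ y, ev N kc q t v y) → (∃ y, ev N kc q t' v y) → g t ≠ g t' := by
    rintro t t' htt hb hb' ⟨y, hy⟩ ⟨y', hy'⟩ he
    rw [hgv t y hy, hgv t' y' hy'] at he
    subst he
    have hI := inv_sts (kc := kc) (q := q) hN t
    have hI' := inv_sts (kc := kc) (q := q) hN t'
    obtain ⟨a1, a2, a3, a4, a5, a6, a7⟩ := gives_spec hy
    obtain ⟨c1, c2, c3, c4, c5, c6, c7⟩ := gives_spec hy'
    have hb1 : (sts N kc q (t + 1)).b v = k := by
      have e1 : (sts N kc q t).b v ≤ (sts N kc q (t + 1)).b v := b_mono v
      have e2 : (sts N kc q (t + 1)).b v ≤ (sts N kc q t').b v := base_mono htt v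
      omega
    have hmem : y ∈ (sts N kc q (t + 1)).inn v :=
      lower_mono hN htt (by omega) c4 (by omega)
    have : y ∈ inn1 N kc (sts N kc q t) (t % q) v := hmem
    rw [inn1_of_gives hN hI hy, Finset.mem_erase] at this
    exact this.1 rfl
  have hinj' : ∀ s : Finset ℕ, (∀ t ∈ s, (sts N kc q t).b v = k ∧ ∃ y, ev N kc q t v y) →
      Set.InjOn g s := by
    intro s hs t ht t' ht' he
    by_contra hne
    have h1 := hs t (Finset.mem_coe.1 ht)
    have h2 := hs t' (Finset.mem_coe.1 ht')
    rcases Nat.lt_or_gt_of_ne hne with h | h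
    · exact hinj t t' h h1.1 h2.1 h1.2 h2.2 he
    · exact hinj t' t h h2.1 h1.1 h2.2 h1.2 he.symm
  constructor
  · by_cases hc : c < q
    · refine le_trans (Finset.card_le_card_of_injOn g ?_ (hinj' _ ?_)) (hD v c hc)
      · intro t ht
        have ht' := (Finset.mem_filter.1 (Finset.mem_coe.1 ht)).2
        obtain ⟨y, hy⟩ := ht'.2.2
        obtain ⟨a1, a2, a3, a4, a5, a6, a7⟩ := gives_spec hy
        rw [hgv t y hy]
        apply Finset.mem_coe.2
        rw [Finset.mem_filter]
        refine ⟨a3, ?_⟩
        rw [hkc v y a3, a7]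
        exact ht'.2.1
      · intro t ht
        have ht' := (Finset.mem_filter.1 ht).2
        exact ⟨ht'.1, ht'.2.2⟩
    · rw [Finset.filter_false_of_mem]
      · simp
      · intro t _ h
        have := Nat.mod_lt t hq
        omega
  · refine le_trans (Finset.card_le_card_of_injOn g ?_ (hinj' _ ?_)) (hd v)
    · intro t ht
      have ht' := (Finset.mem_filter.1 (Finset.mem_coe.1 ht)).2
      obtain ⟨y, hy⟩ := ht'.2
      obtain ⟨a1, a2, a3, a4, a5, a6, a7⟩ := gives_spec hy
      rw [hgv t y hy]
      exact Finset.mem_coe.2 a3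
    · intro t ht
      exact (Finset.mem_filter.1 ht).2

/-- The number of slots in which `y` receives while its base is `k`. -/
theorem card_entry {d : ℕ} (hd : ∀ v, (N v).card ≤ d) (τ y k : ℕ) :
    ((Finset.range τ).filter (fun t => (sts N kc q t).b y = k ∧
      ∃ x, ev N kc q t x y)).card ≤ d := by
  have hex : ∀ t, ∃ x, (∃ x, ev N kc q t x y) → ev N kc q t x y := by
    intro t
    by_cases h : ∃ x, ev N kc q t x y
    · obtain ⟨x, hx⟩ := h
      exact ⟨x, fun _ => hx⟩
    · exact ⟨0, fun h' => absurd h' h⟩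
  choose g hg using hex
  have hinj : ∀ t t', t < t' → (sts N kc q t).b y = k → (sts N kc q t').b y = k →
      ev N kc q t (g t) y → ev N kc q t' (g t') y → g t ≠ g t' := by
    intro t t' htt hb hb' h1 h2 he
    rw [← he] at h2
    set x := g t with hx
    have hI := inv_sts (kc := kc) (q := q) hN t
    obtain ⟨a1, a2, a3, a4, a5, a6, a7⟩ := gives_spec h1
    obtain ⟨c1, c2, c3, c4, c5, c6, c7⟩ := gives_spec h2
    -- `x` stays an in-neighbour of `y`
    have hstay : ∀ r, t + 1 ≤ r → r ≤ t' → x ∈ (sts N kc q r).inn y := by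
      intro r hr
      induction r, hr using Nat.le_induction with
      | base =>
        intro _
        show x ∈ inn1 N kc (sts N kc q t) (t % q) y
        rw [mem_inn1 hN hI]
        exact Or.inr h1
      | succ r hr ih =>
        intro hr'
        have hx1 := ih (by omega)
        have hIr := inv_sts (kc := kc) (q := q) hN r
        show x ∈ inn1 N kc (sts N kc q r) (r % q) y
        rw [mem_inn1 hN hIr]
        left
        refine ⟨hx1, fun hgr => ?_⟩
        have e1 := (gives_spec hgr).2.2.2.2.1
        have e2 : (sts N kc q r).b y ≤ (sts N kc q t').b y := base_mono (by omega) y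
        have e3 : (sts N kc q t).b x ≤ (sts N kc q r).b x := base_mono (by omega) x
        omega
    have h3 := hstay t' (by omega) (le_refl _)
    have hI' := inv_sts (kc := kc) (q := q) hN t'
    exact (hI'.ori x y c2).1 h3 c4
  refine le_trans (Finset.card_le_card_of_injOn g ?_ ?_) (hd y)
  · intro t ht
    have ht' := (Finset.mem_filter.1 (Finset.mem_coe.1 ht)).2
    exact Finset.mem_coe.2 (gives_spec (hg t ht'.2)).2.1
  · intro t ht t' ht' he
    have h1 := (Finset.mem_filter.1 (Finset.mem_coe.1 ht)).2
    have h2 := (Finset.mem_filter.1 (Finset.mem_coe.1 ht')).2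
    by_contra hne
    rcases Nat.lt_or_gt_of_ne hne with h | h
    · exact hinj t t' h h1.1 h2.1 (hg t h1.2) (hg t' h2.2) he
    · exact hinj t' t h h2.1 h1.1 (hg t' h2.2) (hg t h1.2) he.symm

end run

end HEO70
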