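import Mathlib
import Pool.Agent.HEO70.Process

/-!
# The running time of the settle and drop process
-/

namespace HEO70

open Classical

theorem exists_mod {q c : ℕ} (hc : c < q) (t : ℕ) : ∃ σ, t ≤ σ ∧ σ < t + q ∧ σ % q = c := by
  have h1 := Nat.div_add_mod t q
  have h2 := Nat.mod_lt t (by omega : 0 < q)
  by_cases h : t % q ≤ c
  · refine ⟨q * (t / q) + c, by omega, by omega, ?_⟩
    rw [Nat.mul_add_mod, Nat.mod_eq_of_lt hc]
  · refine ⟨q * (t / q + 1) + c, ?_, ?_, ?_⟩
    · rw [mul_add]; omega
    · rw [mul_add]; omega
    · rw [Nat.mul_add_mod, Nat.mod_eq_of_lt hc]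

/-- The slots before `τ` in which `v` has base `k` and positive excess. -/
noncomputable def U (N : ℕ → Finset ℕ) (kc : ℕ → ℕ → ℕ) (q τ v k : ℕ) : Finset ℕ :=
  (Finset.range τ).filter (fun t => (sts N kc q t).b v = k ∧ 0 < exc (sts N kc q t) v)

section

variable {N : ℕ → Finset ℕ} {kc : ℕ → ℕ → ℕ} {q : ℕ} (hN : GoodN N) {d D : ℕ}
  (hD : ∀ v c, c < q → ((N v).filter (fun w => kc v w = c)).card ≤ D)
  (hkc : ∀ v w, w ∈ N v → kc v w = kc w v) (hq : 0 < q) (hd : ∀ v, (N v).card ≤ d)
  (hkq : ∀ v w, w ∈ N v → kc v w < q)

include hN hD hkc hq hd hkq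

/-- The slots in which `v` is unsettled, does not give, and its persistent critical neighbour `y`
has no excess. -/
theorem count_hot {τ v y k t2 : ℕ} (ht2 : t2 < τ) (hb2 : (sts N kc q t2).b v = k + 1)
    (hy2 : y ∈ (sts N kc q t2).inn v) (hby2 : (sts N kc q t2).b y < k + 1)
    (B : Finset ℕ) (hB : ∀ t ∈ B, t ≤ t2 ∧ (sts N kc q t).b v = k + 1 ∧
      0 < exc (sts N kc q t) v ∧ exc (sts N kc q t) y = 0) :
    B.card ≤ q * (2 * d + D * D + 1) := by
  set c : ℕ := kc y v with hcdef
  have hIv2 := inv_sts (kc := kc) (q := q) hN t2
  have hyN : y ∈ N v := hIv2.sub v hy2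
  have hvN : v ∈ N y := hN.symm _ _ hyN
  have hcq : c < q := hkq y v hvN
  set Ex : Finset ℕ := (Finset.range τ).filter (fun t => (sts N kc q t).b v = k + 1 ∧
      ∃ y, ev N kc q t v y) with hEx
  set En : Finset ℕ := (Finset.range τ).filter (fun t => (sts N kc q t).b y = k ∧
      ∃ x, ev N kc q t x y) with hEn
  set Fl : Finset ℕ := ((N y).filter (fun x => kc y x = c)).biUnion (fun x =>
      (Finset.range τ).filter (fun t => (sts N kc q t).b x = k + 1 ∧ t % q = c ∧
      ∃ z, ev N kc q t x z)) with hFl
  set E : Finset ℕ := Ex ∪ En ∪ Fl ∪ {t2} with hE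
  have hExc : Ex.card ≤ d := (card_exit_class hN hD hkc hq hd τ v (k + 1) c).2
  have hEnc : En.card ≤ d := card_entry hN hd τ y k
  have hFlc : Fl.card ≤ D * D := by
    refine le_trans (Finset.card_biUnion_le_card_mul _ _ D ?_) ?_
    · intro x _
      exact (card_exit_class hN hD hkc hq hd τ x (k + 1) c).1
    · exact Nat.mul_le_mul_right _ (hD y c hcq)
  have hEc : E.card ≤ 2 * d + D * D + 1 := by
    have a1 := Finset.card_union_le (Ex ∪ En ∪ Fl) {t2}
    have a2 := Finset.card_union_le (Ex ∪ En) Fl
    have a3 := Finset.card_union_le Ex En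
    rw [Finset.card_singleton] at a1
    rw [hE]
    omega
  -- facts between the slots of `B` and `t2`
  have hfact : ∀ t ∈ B, ∀ s, t ≤ s → s ≤ t2 → (sts N kc q s).b v = k + 1 ∧
      y ∈ (sts N kc q s).inn v ∧ (sts N kc q s).b y = k := by
    intro t ht s hts hst
    have h1 := (hB t ht).2.1
    have h2 : (sts N kc q t).b v ≤ (sts N kc q s).b v := base_mono hts v
    have h3 : (sts N kc q s).b v ≤ (sts N kc q t2).b v := base_mono hst v
    have h4 : (sts N kc q s).b y ≤ (sts N kc q t2).b y := base_mono hst y
    have h5 : y ∈ (sts N kc q s).inn v := lower_mono hN hst (by omega) hy2 (by omega)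
    have h6 := (inv_sts (kc := kc) (q := q) hN s).lip v y h5
    exact ⟨by omega, h5, by omega⟩
  -- every slot of `B` is followed by an event
  have hev : ∀ t ∈ B, ∃ σ ∈ E, t ≤ σ ∧ σ < t + q := by
    intro t ht
    by_contra hcon
    push Not at hcon
    have hcon' : ∀ σ ∈ E, t ≤ σ → t + q ≤ σ := hcon
    have ht2E : t2 ∈ E := by
      rw [hE]
      exact Finset.mem_union_right _ (Finset.mem_singleton_self _)
    have htt2 : t + q ≤ t2 := hcon' t2 ht2E (hB t ht).1
    have hrun : ∀ s, t ≤ s → s < t + q → 0 < exc (sts N kc q s) v ∧ exc (sts N kc q s) y = 0 := by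
      intro s hs
      induction s, hs using Nat.le_induction with
      | base =>
        intro _
        exact (hB t ht).2.2
      | succ s hs ih =>
        intro hs'
        obtain ⟨hv, hy⟩ := ih (by omega)
        obtain ⟨f1, f2, f3⟩ := hfact t ht s hs (by omega)
        obtain ⟨g1, g2, g3⟩ := hfact t ht (s + 1) (by omega) (by omega)
        have hI := inv_sts (kc := kc) (q := q) hN s
        have hnv : ∀ z, grant N kc (sts N kc q s) (s % q) v ≠ some z := by
          intro z hz
          have hmem : s ∈ E := by
            rw [hE]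
            apply Finset.mem_union_left
            apply Finset.mem_union_left
            apply Finset.mem_union_left
            rw [hEx, Finset.mem_filter]
            exact ⟨Finset.mem_range.2 (by omega), f1, z, hz⟩
          have := hcon' s hmem hs
          omega
        have hny : ∀ x, grant N kc (sts N kc q s) (s % q) x ≠ some y := by
          intro x hx
          have hmem : s ∈ E := by
            rw [hE]
            apply Finset.mem_union_left
            apply Finset.mem_union_left
            apply Finset.mem_union_right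
            rw [hEn, Finset.mem_filter]
            exact ⟨Finset.mem_range.2 (by omega), f3, x, hx⟩
          have := hcon' s hmem hs
          omega
        constructor
        · have hk : (sts N kc q (s + 1)).inn v = (sts N kc q s).inn v := inn_keep hN hI hv hnv
          unfold exc at hv ⊢
          rw [hk]
          omega
        · obtain ⟨k1, k2⟩ := idle_keep hN hI hy hny
          have k1' : (sts N kc q (s + 1)).inn y = (sts N kc q s).inn y := k1
          have k2' : (sts N kc q (s + 1)).b y = (sts N kc q s).b y := k2
          unfold exc at hy ⊢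
          rw [k1', k2']
          exact hy
    obtain ⟨σ, hσ1, hσ2, hσ3⟩ := exists_mod hcq t
    obtain ⟨f1, f2, f3⟩ := hfact t ht σ hσ1 (by omega)
    obtain ⟨e1, e2⟩ := hrun σ hσ1 hσ2
    have hcand : v ∈ cand N kc (sts N kc q σ) (σ % q) y := by
      unfold cand
      rw [Finset.mem_filter]
      exact ⟨hvN, f2, by omega, e1, hσ3.symm⟩
    obtain ⟨x', z, hx', hz⟩ := exists_grant hN e2 hcand
    unfold cand at hx'
    rw [Finset.mem_filter] at hx'
    obtain ⟨m1, m2, m3, m4, m5⟩ := hx'
    have hmem : σ ∈ E := by
      rw [hE]
      apply Finset.mem_union_left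
      apply Finset.mem_union_right
      rw [hFl, Finset.mem_biUnion]
      refine ⟨x', Finset.mem_filter.2 ⟨m1, by rw [m5, hσ3]⟩, ?_⟩
      rw [Finset.mem_filter]
      exact ⟨Finset.mem_range.2 (by omega), by omega, hσ3, z, hz⟩
    have := hcon' σ hmem hσ1
    omega
  have hsub : B ⊆ E.biUnion (fun σ => (Finset.range q).image (fun i => σ - i)) := by
    intro t ht
    obtain ⟨σ, hσ, h1, h2⟩ := hev t ht
    rw [Finset.mem_biUnion]
    refine ⟨σ, hσ, ?_⟩
    rw [Finset.mem_image]
    exact ⟨σ - t, Finset.mem_range.2 (by omega), by omega⟩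
  calc B.card ≤ _ := Finset.card_le_card hsub
    _ ≤ E.card * q := Finset.card_biUnion_le_card_mul _ _ q (fun σ _ =>
        le_trans Finset.card_image_le (by rw [Finset.card_range]))
    _ ≤ (2 * d + D * D + 1) * q := Nat.mul_le_mul_right _ hEc
    _ = q * (2 * d + D * D + 1) := mul_comm _ _

/-- The number of slots in which a node is unsettled with base `k`. -/
theorem main_count : ∀ k v τ, (U N kc q τ v k).card ≤
    1 + k * (1 + d + q * (2 * d + D * D + 1)) := by
  intro k
  induction k with
  | zero =>
    intro v τ
    rw [Nat.zero_mul, Nat.add_zero, Finset.card_le_one]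
    have key : ∀ t t', t ∈ U N kc q τ v 0 → t' ∈ U N kc q τ v 0 → ¬ t < t' := by
      intro t t' ht ht' hlt
      unfold U at ht ht'
      rw [Finset.mem_filter] at ht ht'
      obtain ⟨_, h1, h2⟩ := ht
      obtain ⟨_, h3, _⟩ := ht'
      have hI := inv_sts (kc := kc) (q := q) hN t
      have h4 : (sts N kc q (t + 1)).b v ≤ (sts N kc q t').b v := base_mono hlt v
      have h5 : (sts N kc q (t + 1)).b v = (sts N kc q t).b v := by
        have : (sts N kc q t).b v ≤ (sts N kc q (t + 1)).b v := b_mono v
        omega
      have hn : ∀ y, grant N kc (sts N kc q t) (t % q) v ≠ some y := by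
        intro y hy
        have := (gives_spec hy).2.2.2.2.1
        omega
      obtain ⟨w, _, hw⟩ := exists_lower hN hI h2 hn h5
      omega
    intro t ht t' ht'
    have h1 := key t t' ht ht'
    have h2 := key t' t ht' ht
    omega
  | succ k ih =>
    intro v τ
    set M := 1 + d + q * (2 * d + D * D + 1) with hM
    by_cases hne : (U N kc q τ v (k + 1)).Nonempty
    swap
    · rw [Finset.not_nonempty_iff_eq_empty] at hne
      rw [hne]
      simp
    set t1 := (U N kc q τ v (k + 1)).max' hne with ht1
    have ht1mem : t1 ∈ U N kc q τ v (k + 1) := Finset.max'_mem _ hne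
    set U' := (U N kc q τ v (k + 1)).erase t1 with hU'
    have hUcard : (U N kc q τ v (k + 1)).card = U'.card + 1 := by
      rw [hU', Finset.card_erase_of_mem ht1mem]
      have := Finset.card_pos.2 hne
      omega
    have hU'mem : ∀ t ∈ U', t < τ ∧ (sts N kc q t).b v = k + 1 ∧ 0 < exc (sts N kc q t) v ∧
        (sts N kc q (t + 1)).b v = k + 1 := by
      intro t ht
      rw [hU', Finset.mem_erase] at ht
      have hlt : t < t1 := lt_of_le_of_ne (Finset.le_max' _ _ ht.2) ht.1
      have h1 := ht.2
      unfold U at h1 ht1mem
      rw [Finset.mem_filter, Finset.mem_range] at h1 ht1mem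
      refine ⟨h1.1, h1.2.1, h1.2.2, ?_⟩
      have h2 : (sts N kc q (t + 1)).b v ≤ (sts N kc q t1).b v := base_mono hlt v
      have h3 : (sts N kc q t).b v ≤ (sts N kc q (t + 1)).b v := b_mono v
      omega
    set A := U'.filter (fun t => ∃ y, ev N kc q t v y) with hA
    set B := U'.filter (fun t => ¬ ∃ y, ev N kc q t v y) with hB
    have hAB : A.card + B.card = U'.card := by
      rw [hA, hB]
      exact Finset.card_filter_add_card_filter_not _
    have hAc : A.card ≤ d := by
      refine le_trans (Finset.card_le_card ?_)
        (card_exit_class hN hD hkc hq hd τ v (k + 1) 0).2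
      intro t ht
      rw [hA, Finset.mem_filter] at ht
      rw [Finset.mem_filter, Finset.mem_range]
      have := hU'mem t ht.1
      exact ⟨this.1, this.2.1, ht.2⟩
    have hBc : B.card ≤ (1 + k * M) + q * (2 * d + D * D + 1) := by
      by_cases hBne : B.Nonempty
      swap
      · rw [Finset.not_nonempty_iff_eq_empty] at hBne
        rw [hBne]
        simp
      set t2 := B.max' hBne with ht2
      have ht2mem : t2 ∈ B := Finset.max'_mem _ hBne
      have ht2mem' := ht2mem
      rw [hB, Finset.mem_filter] at ht2mem'
      obtain ⟨hm1, hm2⟩ := ht2mem'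
      obtain ⟨g1, g2, g3, g4⟩ := hU'mem t2 hm1
      have hI2 := inv_sts (kc := kc) (q := q) hN t2
      have hng : ∀ y, grant N kc (sts N kc q t2) (t2 % q) v ≠ some y := fun y hy => hm2 ⟨y, hy⟩
      obtain ⟨y, hy2, hby2⟩ := exists_lower hN hI2 g3 hng
        (show (sts N kc q (t2 + 1)).b v = (sts N kc q t2).b v by omega)
      have hsplit : B.card = (B.filter (fun t => 0 < exc (sts N kc q t) y)).card +
          (B.filter (fun t => ¬ 0 < exc (sts N kc q t) y)).card :=
        (Finset.card_filter_add_card_filter_not _).symm
      rw [hsplit]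
      apply Nat.add_le_add
      · refine le_trans (Finset.card_le_card ?_) (ih y τ)
        intro t ht
        rw [Finset.mem_filter] at ht
        obtain ⟨htB, hty⟩ := ht
        have htt2 : t ≤ t2 := Finset.le_max' _ _ htB
        rw [hB, Finset.mem_filter] at htB
        obtain ⟨l1, l2, l3, l4⟩ := hU'mem t htB.1
        have h4 : (sts N kc q t).b y ≤ (sts N kc q t2).b y := base_mono htt2 y
        have h5 : y ∈ (sts N kc q t).inn v := lower_mono hN htt2 (by omega) hy2 hby2
        have h6 := (inv_sts (kc := kc) (q := q) hN t).lip v y h5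
        unfold U
        rw [Finset.mem_filter, Finset.mem_range]
        exact ⟨l1, by omega, hty⟩
      · apply count_hot hN hD hkc hq hd hkq (τ := τ) (v := v) (y := y) (k := k) (t2 := t2)
          g1 g2 hy2 (by omega)
        intro t ht
        rw [Finset.mem_filter] at ht
        obtain ⟨htB, hty⟩ := ht
        have htt2 : t ≤ t2 := Finset.le_max' _ _ htB
        rw [hB, Finset.mem_filter] at htB
        obtain ⟨l1, l2, l3, l4⟩ := hU'mem t htB.1
        exact ⟨htt2, l2, l3, by omega⟩
    have hkM : (k + 1) * M = k * M + M := by ring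
    rw [hkM]
    omega

/-- A node that becomes unsettled has excess one and a constant base until it settles or gives. -/
theorem received_const {s v : ℕ} (h0 : exc (sts N kc q s) v = 0) (t : ℕ) (hst : s < t)
    (h : ∀ r, s < r → r ≤ t → 0 < exc (sts N kc q r) v) :
    ∀ r, s < r → r ≤ t → ((sts N kc q r).inn v).card = (sts N kc q r).b v + 1 ∧
      (sts N kc q r).b v = (sts N kc q s).b v := by
  intro r hr
  induction r, hr using Nat.le_induction with
  | base =>
    intro hr'
    show ((sts N kc q (s + 1)).inn v).card = (sts N kc q (s + 1)).b v + 1 ∧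
      (sts N kc q (s + 1)).b v = (sts N kc q s).b v
    have hI := inv_sts (kc := kc) (q := q) hN s
    have hI' := inv_sts (kc := kc) (q := q) hN (s + 1)
    have h1 := h (s + 1) (by omega) hr'
    have hex : ∃ x, grant N kc (sts N kc q s) (s % q) x = some v := by
      by_contra hcon
      push Not at hcon
      obtain ⟨k1, k2⟩ := idle_keep hN hI h0 hcon
      have k1' : (sts N kc q (s + 1)).inn v = (sts N kc q s).inn v := k1
      have k2' : (sts N kc q (s + 1)).b v = (sts N kc q s).b v := k2
      unfold exc at h0 h1
      rw [k1', k2'] at h1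
      omega
    obtain ⟨x, hx⟩ := hex
    have e1 : (sts N kc q (s + 1)).inn v = insert x ((sts N kc q s).inn v) :=
      inn1_of_recv hN hI hx
    have e2 : ((sts N kc q (s + 1)).inn v).card ≤ ((sts N kc q s).inn v).card + 1 := by
      rw [e1]
      exact Finset.card_insert_le _ _
    have e3 : (sts N kc q s).b v ≤ (sts N kc q (s + 1)).b v := b_mono v
    unfold exc at h0 h1
    have e4 := hI.ble v
    omega
  | succ r hr ih =>
    intro hr'
    obtain ⟨i1, i2⟩ := ih (by omega)
    have hI := inv_sts (kc := kc) (q := q) hN r
    have h1 := h r hr (by omega)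
    have h2 := h (r + 1) (by omega) hr'
    have e3 : (sts N kc q r).b v ≤ (sts N kc q (r + 1)).b v := b_mono v
    by_cases hg : ∃ y, grant N kc (sts N kc q r) (r % q) v = some y
    · obtain ⟨y, hy⟩ := hg
      have e1 : (sts N kc q (r + 1)).inn v = ((sts N kc q r).inn v).erase y :=
        inn1_of_gives hN hI hy
      have e2 : ((sts N kc q (r + 1)).inn v).card = ((sts N kc q r).inn v).card - 1 := by
        rw [e1, Finset.card_erase_of_mem (gives_spec hy).2.2.2.1]
      unfold exc at h1 h2
      omega
    · push Not at hg
      have e1 : (sts N kc q (r + 1)).inn v = (sts N kc q r).inn v := inn_keep hN hI h1 hg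
      unfold exc at h1 h2
      rw [e1] at h2
      constructor
      · rw [e1]
        omega
      · omega

/-- The last unsettled slot. -/
theorem unsettled_lt (m : ℕ) : ∀ v t, 0 < exc (sts N kc q t) v →
    d - (sts N kc q t).b v ≤ m →
    t < (d + m) * (1 + d * (1 + d + q * (2 * d + D * D + 1))) := by
  set M := 1 + d + q * (2 * d + D * D + 1) with hM
  set Γ := 1 + d * M with hΓ
  have hblt : ∀ v t, 0 < exc (sts N kc q t) v → (sts N kc q t).b v < d := by
    intro v t h
    have hI := inv_sts (kc := kc) (q := q) hN t
    have := Finset.card_le_card (hI.sub v)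
    have := hd v
    unfold exc at h
    omega
  have hUle : ∀ v τ k, k < d → (U N kc q τ v k).card ≤ Γ := by
    intro v τ k hk
    have h0 := main_count hN hD hkc hq hd hkq k v τ
    rw [← hM] at h0
    rw [hΓ]
    have : k * M ≤ d * M := Nat.mul_le_mul_right _ (by omega)
    omega
  induction m with
  | zero =>
    intro v t h h'
    have := hblt v t h
    omega
  | succ m ih =>
    intro v t h h'
    have hb := hblt v t h
    by_cases hex : ∃ s, s < t ∧ exc (sts N kc q s) v = 0
    · -- the last settled slot before `t`
      set Z := (Finset.range t).filter (fun s => exc (sts N kc q s) v = 0) with hZ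
      have hZne : Z.Nonempty := by
        obtain ⟨s, hs, hs'⟩ := hex
        exact ⟨s, Finset.mem_filter.2 ⟨Finset.mem_range.2 hs, hs'⟩⟩
      set s := Z.max' hZne with hs
      have hsmem : s ∈ Z := Finset.max'_mem _ _
      rw [hZ, Finset.mem_filter, Finset.mem_range] at hsmem
      obtain ⟨hst, hs0⟩ := hsmem
      have hpos : ∀ r, s < r → r ≤ t → 0 < exc (sts N kc q r) v := by
        intro r hr hr'
        rcases Nat.lt_or_ge r t with h1 | h1
        · by_contra hcon
          have hrZ : r ∈ Z := by
            rw [hZ, Finset.mem_filter, Finset.mem_range]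
            exact ⟨h1, by omega⟩
          have : r ≤ s := Finset.le_max' _ _ hrZ
          omega
        · have : r = t := by omega
          rw [this]
          exact h
      have hconst := received_const hN hD hkc hq hd hkq hs0 t hst hpos
      -- the giver
      have hI := inv_sts (kc := kc) (q := q) hN s
      have hex : ∃ x, grant N kc (sts N kc q s) (s % q) x = some v := by
        by_contra hcon
        push Not at hcon
        obtain ⟨k1, k2⟩ := idle_keep hN hI hs0 hcon
        have k1' : (sts N kc q (s + 1)).inn v = (sts N kc q s).inn v := k1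
        have k2' : (sts N kc q (s + 1)).b v = (sts N kc q s).b v := k2
        have h1 := hpos (s + 1) (by omega) hst
        unfold exc at hs0 h1
        rw [k1', k2'] at h1
        omega
      obtain ⟨x, hx⟩ := hex
      obtain ⟨a1, a2, a3, a4, a5, a6, a7⟩ := gives_spec hx
      have hbt := (hconst t hst (le_refl _)).2
      have hs' := ih x s a6 (by omega)
      have hsub : Finset.Ioc s t ⊆ U N kc q (t + 1) v ((sts N kc q t).b v) := by
        intro r hr
        rw [Finset.mem_Ioc] at hr
        unfold U
        rw [Finset.mem_filter, Finset.mem_range]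
        refine ⟨by omega, ?_, hpos r hr.1 hr.2⟩
        rw [(hconst r hr.1 hr.2).2, hbt]
      have hc := Finset.card_le_card hsub
      rw [Nat.card_Ioc] at hc
      have hc' := hUle v (t + 1) _ hb
      have e : (d + (m + 1)) * Γ = (d + m) * Γ + Γ := by ring
      rw [e]
      omega
    · push Not at hex
      have hsub : Finset.range (t + 1) ⊆
          (Finset.range d).biUnion (fun k => U N kc q (t + 1) v k) := by
        intro r hr
        rw [Finset.mem_range] at hr
        rw [Finset.mem_biUnion]
        have hr' : 0 < exc (sts N kc q r) v := by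
          rcases Nat.lt_or_ge r t with h1 | h1
          · have := hex r h1
            omega
          · have : r = t := by omega
            rw [this]
            exact h
        refine ⟨(sts N kc q r).b v, Finset.mem_range.2 (hblt v r hr'), ?_⟩
        unfold U
        rw [Finset.mem_filter, Finset.mem_range]
        exact ⟨hr, rfl, hr'⟩
      have hc := Finset.card_le_card hsub
      rw [Finset.card_range] at hc
      have hc' := Finset.card_biUnion_le_card_mul (Finset.range d)
        (fun k => U N kc q (t + 1) v k) Γ (fun k hk => hUle v (t + 1) k (Finset.mem_range.1 hk))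
      rw [Finset.card_range] at hc'
      have e : (d + (m + 1)) * Γ = d * Γ + (m + 1) * Γ := by ring
      rw [e]
      omega

/-- At the end no node has excess. -/
theorem settled_at (v t : ℕ) (ht : 2 * d * (1 + d * (1 + d + q * (2 * d + D * D + 1))) ≤ t) :
    exc (sts N kc q t) v = 0 := by
  by_contra h
  have h1 := unsettled_lt hN hD hkc hq hd hkq d v t (by omega) (by omega)
  have e : (d + d) * (1 + d * (1 + d + q * (2 * d + D * D + 1))) =
      2 * d * (1 + d * (1 + d + q * (2 * d + D * D + 1))) := by ring
  omega

/-- At the end the orientation is happy. -/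
theorem happy_at (t : ℕ) (ht : 2 * d * (1 + d * (1 + d + q * (2 * d + D * D + 1))) ≤ t)
    (u v : ℕ) (huv : u ∈ (sts N kc q t).inn v) :
    ((sts N kc q t).inn v).card ≤ ((sts N kc q t).inn u).card + 1 := by
  have hI := inv_sts (kc := kc) (q := q) hN t
  have h1 := settled_at hN hD hkc hq hd hkq v t ht
  have h2 := hI.lip v u huv
  have h3 := hI.ble u
  unfold exc at h1
  omega

end

end HEO70
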