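import Mathlib

/-!
# The LOCAL model (deterministic), and locality

A network is a finite simple graph whose nodes are named by their distinct identifiers.  An
algorithm is a state machine which in every round sends its whole state to all neighbours.
`exists_algorithm_of_local` : an output function that depends only on the radius `T` view of the
node is computed by an algorithm in `T` rounds.
-/

namespace HEO70

open Classical

/-- A network: a finite simple graph whose nodes are natural numbers, the distinct identifiers
of the processors. -/
structure Network where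
  nodes : Finset ℕ
  graph : SimpleGraph ℕ
  adj_mem : ∀ u v, graph.Adj u v → u ∈ nodes

/-- A deterministic algorithm of the LOCAL model: a node starts in the state `init i`, where `i` is
its identifier; in every round it receives the states of its neighbours (`none` is received from
identifiers that are not neighbours), and computes its new state; `out` is the set of the
identifiers of those neighbours from which the common edge is directed into the node. -/
structure Algorithm where
  State : Type
  init : ℕ → State
  step : State → (ℕ → Option State) → State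
  out : State → Set ℕ

/-- The state of node `v` after `t` rounds. -/
noncomputable def Algorithm.run (A : Algorithm) (G : Network) : ℕ → ℕ → A.State
  | 0, v => A.init v
  | t + 1, v => A.step (A.run G t v)
      (fun u => if G.graph.Adj v u then some (A.run G t u) else none)

/-- `I v` is the set of the nodes `u` such that the edge `uv` is directed from `u` to `v`; the load
of `v` is the number of elements of `I v`. -/
structure IsHappyOrientation (G : Network) (I : ℕ → Set ℕ) : Prop where
  sub : ∀ u v, u ∈ I v → G.graph.Adj u v
  orient : ∀ u v, G.graph.Adj u v → (u ∈ I v ↔ v ∉ I u)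
  happy : ∀ u v, u ∈ I v → (I v).ncard ≤ (I u).ncard + 1

/-- Some deterministic algorithm outputs a happy orientation after `T` rounds on every network of
maximum degree at most `Δ`. -/
def SolvableIn (Δ T : ℕ) : Prop :=
  ∃ A : Algorithm, ∀ G : Network, (∀ v, (G.graph.neighborSet v).ncard ≤ Δ) →
    IsHappyOrientation G (fun v => A.out (A.run G T v))

/-- The neighbours of `v`, as a finite set. -/
noncomputable def nb (G : Network) (v : ℕ) : Finset ℕ := G.nodes.filter (fun u => G.graph.Adj v u)

theorem mem_nb {G : Network} {v u : ℕ} : u ∈ nb G v ↔ G.graph.Adj v u := by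
  unfold nb
  rw [Finset.mem_filter]
  constructor
  · exact fun h => h.2
  · exact fun h => ⟨G.adj_mem _ _ h.symm, h⟩

theorem mem_nb_comm {G : Network} {v u : ℕ} : u ∈ nb G v ↔ v ∈ nb G u := by
  rw [mem_nb, mem_nb]
  exact G.graph.adj_comm v u

theorem not_mem_nb_self {G : Network} {v : ℕ} : v ∉ nb G v := by
  rw [mem_nb]
  exact G.graph.irrefl

theorem card_nb {G : Network} {v d : ℕ} (h : (G.graph.neighborSet v).ncard ≤ d) :
    (nb G v).card ≤ d := by
  have : (G.graph.neighborSet v) = ↑(nb G v) := by
    ext u
    simp [mem_nb]
  rw [this, Set.ncard_coe_finset] at h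
  exact h

/-- The radius `r` views of `v` in the two networks are the same. -/
def Agree (G G' : Network) : ℕ → ℕ → Prop
  | 0, _ => True
  | r + 1, v => (∀ u, G.graph.Adj v u ↔ G'.graph.Adj v u) ∧ Agree G G' r v ∧
      ∀ u, G.graph.Adj v u → Agree G G' r u

/-- The function `F` depends only on the radius `r` view. -/
def IsLocal {α : Type} (r : ℕ) (F : Network → ℕ → α) : Prop :=
  ∀ G G' : Network, ∀ v, Agree G G' r v → F G v = F G' v

theorem agree_le {G G' : Network} {r s v : ℕ} (h : Agree G G' s v) (hrs : r ≤ s) :
    Agree G G' r v := by
  induction s with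
  | zero =>
    have : r = 0 := by omega
    subst this
    exact h
  | succ s ih =>
    rcases Nat.lt_or_ge r (s + 1) with h1 | h1
    · exact ih h.2.1 (by omega)
    · have : r = s + 1 := by omega
      subst this
      exact h

theorem IsLocal.mono {α : Type} {r s : ℕ} {F : Network → ℕ → α} (h : IsLocal r F)
    (hrs : r ≤ s) : IsLocal s F :=
  fun G G' v hv => h G G' v (agree_le hv hrs)

theorem nb_eq_of_adj {G G' : Network} {v : ℕ}
    (h : ∀ u, G.graph.Adj v u ↔ G'.graph.Adj v u) : nb G v = nb G' v := by
  ext u
  rw [mem_nb, mem_nb]
  exact h u

theorem isLocal_nb : IsLocal 1 nb := fun _ _ _ h => nb_eq_of_adj h.1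

/-- One more round. -/
theorem IsLocal.next {α β : Type} {r : ℕ} {F : Network → ℕ → α} {H : Network → ℕ → β}
    (hF : IsLocal r F)
    (hH : ∀ G G' : Network, ∀ v, nb G v = nb G' v → F G v = F G' v →
      (∀ u ∈ nb G v, F G u = F G' u) → H G v = H G' v) : IsLocal (r + 1) H := by
  intro G G' v h
  refine hH G G' v (nb_eq_of_adj h.1) (hF G G' v h.2.1) ?_
  intro u hu
  exact hF G G' u (h.2.2 u (mem_nb.1 hu))

/-- Views of a node. -/
inductive View : Type
  | leaf : ℕ → View
  | node : View → (ℕ → Prop) → (ℕ → View) → View

/-- The view of `v` of radius `t`. -/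
noncomputable def viewOf (G : Network) : ℕ → ℕ → View
  | 0, v => View.leaf v
  | t + 1, v => View.node (viewOf G t v) (fun u => G.graph.Adj v u)
      (fun u => if G.graph.Adj v u then viewOf G t u else View.leaf 0)

theorem agree_of_view {G G' : Network} {t : ℕ} : ∀ {v v' : ℕ},
    viewOf G t v = viewOf G' t v' → v = v' ∧ Agree G G' t v := by
  induction t with
  | zero =>
    intro v v' h
    simp only [viewOf, View.leaf.injEq] at h
    exact ⟨h, trivial⟩
  | succ t ih =>
    intro v v' h
    simp only [viewOf, View.node.injEq] at h
    obtain ⟨h1, h2, h3⟩ := h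
    obtain ⟨h4, h5⟩ := ih h1
    subst h4
    have hadj : ∀ u, G.graph.Adj v u ↔ G'.graph.Adj v u := fun u => by
      have := congrFun h2 u
      exact this ▸ Iff.rfl
    refine ⟨rfl, hadj, h5, ?_⟩
    intro u hu
    have h6 := congrFun h3 u
    simp only [hu, (hadj u).1 hu, if_true] at h6
    exact (ih h6).2

theorem exists_algorithm_of_local {T : ℕ} {F : Network → ℕ → Set ℕ} (hF : IsLocal T F) :
    ∃ A : Algorithm, ∀ G : Network, ∀ v, A.out (A.run G T v) = F G v := by
  let A : Algorithm :=
    { State := View
      init := View.leaf
      step := fun w msgs => View.node w (fun u => (msgs u).isSome = true)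
        (fun u => (msgs u).getD (View.leaf 0))
      out := fun w => if h : ∃ p : Network × ℕ, viewOf p.1 T p.2 = w then
        F h.choose.1 h.choose.2 else ∅ }
  have hrun : ∀ (G : Network) (t v : ℕ), A.run G t v = viewOf G t v := by
    intro G t
    induction t with
    | zero => intro v; rfl
    | succ t ih =>
      intro v
      show View.node (A.run G t v) _ _ = View.node (viewOf G t v) _ _
      rw [ih v]
      congr 1
      · funext u
        by_cases h : G.graph.Adj v u <;> simp [h]
      · funext u
        by_cases h : G.graph.Adj v u <;> simp [h, ih u]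
  refine ⟨A, ?_⟩
  intro G v
  rw [hrun]
  have hex : ∃ p : Network × ℕ, viewOf p.1 T p.2 = viewOf G T v := ⟨(G, v), rfl⟩
  show (if h : ∃ p : Network × ℕ, viewOf p.1 T p.2 = viewOf G T v then
        F h.choose.1 h.choose.2 else ∅) = F G v
  rw [dif_pos hex]
  have hch := hex.choose_spec
  obtain ⟨h1, h2⟩ := agree_of_view hch
  rw [hF _ _ _ h2, h1]

end HEO70
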