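import Mathlib
import Pool.Agent.HEO70.Model

/-!
# A partition of the edges into `q` classes

Every node has at most `2 (2 d / q + 1)` edges of each class; the classes of the edges of a node
are known after `d ^ 2 + 2` rounds.
-/

namespace HEO70

open Classical

/-- The least minimum point below `q` of `f`. -/
noncomputable def argmin (q : ℕ) (f : ℕ → ℕ) : ℕ := sInf {c | c < q ∧ ∀ c' < q, f c ≤ f c'}

theorem argmin_spec {q : ℕ} (hq : 0 < q) (f : ℕ → ℕ) :
    argmin q f < q ∧ ∀ c' < q, f (argmin q f) ≤ f c' := by
  have hne : {c | c < q ∧ ∀ c' < q, f c ≤ f c'}.Nonempty := by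
    obtain ⟨c, hc, hmin⟩ := (Finset.range q).exists_min_image f
      (Finset.nonempty_range_iff.2 (by omega))
    exact ⟨c, Finset.mem_range.1 hc, fun c' hc' => hmin c' (Finset.mem_range.2 hc')⟩
  exact Nat.sInf_mem hne

/-- Neighbours with a larger identifier. -/
noncomputable def outs (G : Network) (u : ℕ) : Finset ℕ := (nb G u).filter (fun w => u < w)

/-- Neighbours with a smaller identifier. -/
noncomputable def ins (G : Network) (v : ℕ) : Finset ℕ := (nb G v).filter (fun w => w < v)

/-- The label of the edge from `u` to `v`, `u < v`. -/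
noncomputable def lab (G : Network) (d u v : ℕ) : ℕ :=
  ((outs G u).filter (fun w => w < v)).card * d + ((ins G v).filter (fun w => w < u)).card

/-- The class of the edge `u v`, `u < v`, after stage `m`. -/
noncomputable def K (G : Network) (d q : ℕ) : ℕ → ℕ → ℕ → ℕ
  | 0, _, _ => q
  | m + 1, u, v => if lab G d u v = m then
      argmin q (fun c => ((outs G u).filter (fun w => K G d q m u w = c)).card +
        ((ins G v).filter (fun w => K G d q m w v = c)).card)
      else K G d q m u v

/-- The class of the edge `v w`, as known to `v` after stage `m`. -/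
noncomputable def kap (d q m : ℕ) (G : Network) (v : ℕ) : ℕ → ℕ := fun w =>
  if w ∈ nb G v then (if v < w then K G d q m v w else K G d q m w v) else 0

theorem kap_comm {G : Network} {d q m v w : ℕ} (h : w ∈ nb G v) :
    kap d q m G v w = kap d q m G w v := by
  have h' : v ∈ nb G w := mem_nb_comm.1 h
  have hne : v ≠ w := by
    rintro rfl
    exact not_mem_nb_self h
  unfold kap
  rw [if_pos h, if_pos h']
  rcases Nat.lt_or_gt_of_ne hne with h1 | h1
  · rw [if_pos h1, if_neg (by omega)]
  · rw [if_neg (by omega), if_pos h1]

/-! ### the labels -/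

section labels

variable {G : Network} {d : ℕ}

theorem rank_lt_of_mem {s : Finset ℕ} {v : ℕ} (hv : v ∈ s) :
    (s.filter (fun w => w < v)).card < s.card := by
  apply Finset.card_lt_card
  refine ⟨Finset.filter_subset _ _, fun h => ?_⟩
  have := h hv
  rw [Finset.mem_filter] at this
  omega

theorem rank_inj {s : Finset ℕ} {v v' : ℕ} (hv : v ∈ s) (hv' : v' ∈ s)
    (h : (s.filter (fun w => w < v)).card = (s.filter (fun w => w < v')).card) : v = v' := by
  by_contra hne
  have key : ∀ a b : ℕ, a ∈ s → a < b →
      (s.filter (fun w => w < a)).card < (s.filter (fun w => w < b)).card := by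
    intro a b ha hab
    apply Finset.card_lt_card
    refine ⟨fun w hw => ?_, fun hsub => ?_⟩
    · rw [Finset.mem_filter] at hw ⊢
      exact ⟨hw.1, by omega⟩
    · have : a ∈ s.filter (fun w => w < a) := hsub (Finset.mem_filter.2 ⟨ha, hab⟩)
      rw [Finset.mem_filter] at this
      omega
  rcases Nat.lt_or_gt_of_ne hne with h1 | h1
  · have := key v v' hv h1
    omega
  · have := key v' v hv' h1
    omega

variable (hd : ∀ v, (nb G v).card ≤ d)

include hd

theorem rj_lt {u v : ℕ} (h : u ∈ ins G v) : ((ins G v).filter (fun w => w < u)).card < d :=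
  lt_of_lt_of_le (rank_lt_of_mem h) (le_trans (Finset.card_filter_le _ _) (hd v))

theorem ri_lt {u v : ℕ} (h : v ∈ outs G u) : ((outs G u).filter (fun w => w < v)).card < d :=
  lt_of_lt_of_le (rank_lt_of_mem h) (le_trans (Finset.card_filter_le _ _) (hd u))

omit hd in
theorem mem_ins_of_outs {u v : ℕ} (h : v ∈ outs G u) : u ∈ ins G v := by
  unfold outs at h
  unfold ins
  rw [Finset.mem_filter] at h ⊢
  exact ⟨mem_nb_comm.1 h.1, h.2⟩

omit hd in
theorem mem_outs_of_ins {u v : ℕ} (h : u ∈ ins G v) : v ∈ outs G u := by
  unfold ins at h
  unfold outs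
  rw [Finset.mem_filter] at h ⊢
  exact ⟨mem_nb_comm.1 h.1, h.2⟩

theorem lab_lt {u v : ℕ} (h : v ∈ outs G u) : lab G d u v < d * d := by
  have h1 := ri_lt hd h
  have h2 := rj_lt hd (mem_ins_of_outs h)
  unfold lab
  calc ((outs G u).filter (fun w => w < v)).card * d + ((ins G v).filter (fun w => w < u)).card
      < ((outs G u).filter (fun w => w < v)).card * d + d := by omega
    _ = (((outs G u).filter (fun w => w < v)).card + 1) * d := by ring
    _ ≤ d * d := Nat.mul_le_mul_right _ h1

theorem lab_split {i j i' j' : ℕ} (hj : j < d) (hj' : j' < d) (h : i * d + j = i' * d + j') :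
    i = i' ∧ j = j' := by
  have hd0 : 0 < d := by omega
  have h1 : (i * d + j) / d = i := by
    rw [mul_comm, Nat.mul_add_div hd0, Nat.div_eq_of_lt hj, add_zero]
  have h2 : (i' * d + j') / d = i' := by
    rw [mul_comm, Nat.mul_add_div hd0, Nat.div_eq_of_lt hj', add_zero]
  have h3 : i = i' := by rw [← h1, ← h2, h]
  subst h3
  exact ⟨rfl, by omega⟩

theorem lab_inj_right {u v v' : ℕ} (h : v ∈ outs G u) (h' : v' ∈ outs G u)
    (he : lab G d u v = lab G d u v') : v = v' := by
  have h1 := rj_lt hd (mem_ins_of_outs h)
  have h2 := rj_lt hd (mem_ins_of_outs h')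
  unfold lab at he
  exact rank_inj h h' (lab_split hd h1 h2 he).1

theorem lab_inj_left {u u' v : ℕ} (h : u ∈ ins G v) (h' : u' ∈ ins G v)
    (he : lab G d u v = lab G d u' v) : u = u' := by
  have h1 := rj_lt hd h
  have h2 := rj_lt hd h'
  unfold lab at he
  exact rank_inj h h' (lab_split hd h1 h2 he).2

end labels

/-! ### the sizes of the classes -/

section sizes

variable {G : Network} {d q : ℕ} (hd : ∀ v, (nb G v).card ≤ d) (hq : 0 < q)

include hd hq

theorem sum_le_aux {s : Finset ℕ} (f : ℕ → ℕ) (hs : s.card ≤ d) :
    ∑ c ∈ Finset.range q, (s.filter (fun w => f w = c)).card ≤ d := by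
  rw [← Finset.card_biUnion]
  · refine le_trans (Finset.card_le_card ?_) hs
    intro w hw
    rw [Finset.mem_biUnion] at hw
    obtain ⟨c, _, hc⟩ := hw
    exact (Finset.mem_filter.1 hc).1
  · intro a _ b _ hab
    rw [Function.onFun, Finset.disjoint_left]
    intro w hw hw'
    rw [Finset.mem_filter] at hw hw'
    exact hab (hw.2.symm.trans hw'.2)

theorem argmin_value {m u v : ℕ} :
    ((outs G u).filter (fun w => K G d q m u w = argmin q (fun c =>
        ((outs G u).filter (fun w => K G d q m u w = c)).card +
        ((ins G v).filter (fun w => K G d q m w v = c)).card))).card +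
      ((ins G v).filter (fun w => K G d q m w v = argmin q (fun c =>
        ((outs G u).filter (fun w => K G d q m u w = c)).card +
        ((ins G v).filter (fun w => K G d q m w v = c)).card))).card ≤ 2 * d / q := by
  set f : ℕ → ℕ := fun c => ((outs G u).filter (fun w => K G d q m u w = c)).card +
        ((ins G v).filter (fun w => K G d q m w v = c)).card with hf
  have h1 := argmin_spec hq f
  have h2 : ∑ c ∈ Finset.range q, f c ≤ 2 * d := by
    rw [hf, Finset.sum_add_distrib]
    have a1 := sum_le_aux hd hq (s := outs G u) (fun w => K G d q m u w)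
      (le_trans (Finset.card_filter_le _ _) (hd u))
    have a2 := sum_le_aux hd hq (s := ins G v) (fun w => K G d q m w v)
      (le_trans (Finset.card_filter_le _ _) (hd v))
    omega
  have h3 : q * f (argmin q f) ≤ ∑ c ∈ Finset.range q, f c := by
    have := Finset.card_nsmul_le_sum (Finset.range q) f (f (argmin q f))
      (fun c hc => h1.2 c (Finset.mem_range.1 hc))
    rwa [Finset.card_range, smul_eq_mul] at this
  have h4 : f (argmin q f) ≤ 2 * d / q := by
    rw [Nat.le_div_iff_mul_le hq, mul_comm]
    exact le_trans h3 h2
  exact h4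

theorem cntO_le (m : ℕ) : ∀ u c, c < q →
    ((outs G u).filter (fun w => K G d q m u w = c)).card ≤ 2 * d / q + 1 := by
  induction m with
  | zero =>
    intro u c hc
    rw [Finset.filter_false_of_mem]
    · simp
    · intro w _
      show q ≠ c
      omega
  | succ m ih =>
    intro u c hc
    by_cases hex : ∃ w0 ∈ outs G u, lab G d u w0 = m ∧ K G d q (m + 1) u w0 = c
    · obtain ⟨w0, hw0, hl, hK⟩ := hex
      have hsub : (outs G u).filter (fun w => K G d q (m + 1) u w = c) ⊆
          insert w0 ((outs G u).filter (fun w => K G d q m u w = c)) := by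
        intro w hw
        rw [Finset.mem_filter] at hw
        rw [Finset.mem_insert, Finset.mem_filter]
        by_cases hlw : lab G d u w = m
        · left
          exact lab_inj_right hd hw.1 hw0 (hlw.trans hl.symm)
        · right
          refine ⟨hw.1, ?_⟩
          have := hw.2
          simp only [K, if_neg hlw] at this
          exact this
      have hval : c = argmin q (fun c => ((outs G u).filter (fun w => K G d q m u w = c)).card +
        ((ins G w0).filter (fun w => K G d q m w w0 = c)).card) := by
        rw [← hK]
        simp only [K, if_pos hl]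
      have h5 := argmin_value hd hq (m := m) (u := u) (v := w0)
      rw [← hval] at h5
      calc _ ≤ _ := Finset.card_le_card hsub
        _ ≤ _ := Finset.card_insert_le _ _
        _ ≤ _ := by omega
    · refine le_trans (Finset.card_le_card ?_) (ih u c hc)
      intro w hw
      rw [Finset.mem_filter] at hw ⊢
      refine ⟨hw.1, ?_⟩
      by_cases hlw : lab G d u w = m
      · exact absurd ⟨w, hw.1, hlw, hw.2⟩ hex
      · have := hw.2
        simp only [K, if_neg hlw] at this
        exact this

theorem cntI_le (m : ℕ) : ∀ v c, c < q →
    ((ins G v).filter (fun w => K G d q m w v = c)).card ≤ 2 * d / q + 1 := by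
  induction m with
  | zero =>
    intro u c hc
    rw [Finset.filter_false_of_mem]
    · simp
    · intro w _
      show q ≠ c
      omega
  | succ m ih =>
    intro v c hc
    by_cases hex : ∃ w0 ∈ ins G v, lab G d w0 v = m ∧ K G d q (m + 1) w0 v = c
    · obtain ⟨w0, hw0, hl, hK⟩ := hex
      have hsub : (ins G v).filter (fun w => K G d q (m + 1) w v = c) ⊆
          insert w0 ((ins G v).filter (fun w => K G d q m w v = c)) := by
        intro w hw
        rw [Finset.mem_filter] at hw
        rw [Finset.mem_insert, Finset.mem_filter]
        by_cases hlw : lab G d w v = m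
        · left
          exact lab_inj_left hd hw.1 hw0 (hlw.trans hl.symm)
        · right
          refine ⟨hw.1, ?_⟩
          have := hw.2
          simp only [K, if_neg hlw] at this
          exact this
      have hval : c = argmin q (fun c => ((outs G w0).filter (fun w => K G d q m w0 w = c)).card +
        ((ins G v).filter (fun w => K G d q m w v = c)).card) := by
        rw [← hK]
        simp only [K, if_pos hl]
      have h5 := argmin_value hd hq (m := m) (u := w0) (v := v)
      rw [← hval] at h5
      calc _ ≤ _ := Finset.card_le_card hsub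
        _ ≤ _ := Finset.card_insert_le _ _
        _ ≤ _ := by omega
    · refine le_trans (Finset.card_le_card ?_) (ih v c hc)
      intro w hw
      rw [Finset.mem_filter] at hw ⊢
      refine ⟨hw.1, ?_⟩
      by_cases hlw : lab G d w v = m
      · exact absurd ⟨w, hw.1, hlw, hw.2⟩ hex
      · have := hw.2
        simp only [K, if_neg hlw] at this
        exact this

/-- After stage `m` all edges with label smaller than `m` have a class below `q`. -/
theorem K_lt (m : ℕ) : ∀ u v, lab G d u v < m → K G d q m u v < q := by
  induction m with
  | zero => intro u v h; omega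
  | succ m ih =>
    intro u v h
    by_cases hl : lab G d u v = m
    · simp only [K, if_pos hl]
      exact (argmin_spec hq _).1
    · simp only [K, if_neg hl]
      exact ih u v (by omega)

theorem kap_lt {v w : ℕ} (h : w ∈ nb G v) : kap d q (d * d) G v w < q := by
  have hne : v ≠ w := by
    rintro rfl
    exact not_mem_nb_self h
  unfold kap
  rw [if_pos h]
  rcases Nat.lt_or_gt_of_ne hne with h1 | h1
  · rw [if_pos h1]
    apply K_lt hd hq
    exact lab_lt hd (Finset.mem_filter.2 ⟨h, h1⟩)
  · rw [if_neg (by omega)]
    apply K_lt hd hq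
    exact lab_lt hd (Finset.mem_filter.2 ⟨mem_nb_comm.1 h, h1⟩)

theorem class_card (v c : ℕ) (hc : c < q) :
    ((nb G v).filter (fun w => kap d q (d * d) G v w = c)).card ≤ 2 * (2 * d / q + 1) := by
  have h1 := cntO_le hd hq (d * d) v c hc
  have h2 := cntI_le hd hq (d * d) v c hc
  have hsub : (nb G v).filter (fun w => kap d q (d * d) G v w = c) ⊆
      (outs G v).filter (fun w => K G d q (d * d) v w = c) ∪
      (ins G v).filter (fun w => K G d q (d * d) w v = c) := by
    intro w hw
    rw [Finset.mem_filter] at hw
    obtain ⟨hw1, hw2⟩ := hw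
    have hne : v ≠ w := by
      rintro rfl
      exact not_mem_nb_self hw1
    unfold kap at hw2
    rw [if_pos hw1] at hw2
    rw [Finset.mem_union, Finset.mem_filter, Finset.mem_filter]
    rcases Nat.lt_or_gt_of_ne hne with h1 | h1
    · rw [if_pos h1] at hw2
      exact Or.inl ⟨Finset.mem_filter.2 ⟨hw1, h1⟩, hw2⟩
    · rw [if_neg (by omega)] at hw2
      exact Or.inr ⟨Finset.mem_filter.2 ⟨hw1, h1⟩, hw2⟩
  calc _ ≤ _ := Finset.card_le_card hsub
    _ ≤ _ := Finset.card_union_le _ _
    _ ≤ _ := by omega

end sizes

/-! ### locality -/

theorem isLocal_kap (d q m : ℕ) : IsLocal (m + 2) (kap d q m) := by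
  induction m with
  | zero =>
    have h1 : IsLocal 1 (kap d q 0) := by
      intro G G' v h
      have hnb := isLocal_nb G G' v h
      funext w
      unfold kap
      rw [hnb]
      rfl
    exact h1.mono (by omega)
  | succ m ih =>
    -- the pair (neighbours, classes) is local
    have hpair : IsLocal (m + 2) (fun G v => (nb G v, kap d q m G v)) := by
      intro G G' v h
      rw [Prod.mk.injEq]
      exact ⟨(isLocal_nb.mono (by omega)) G G' v h, ih G G' v h⟩
    refine hpair.next ?_
    intro G G' v hnb hv hu
    have hkv : kap d q m G v = kap d q m G' v := congrArg Prod.snd hv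
    have hnu : ∀ u ∈ nb G v, nb G u = nb G' u := fun u hu' => congrArg Prod.fst (hu u hu')
    have hku : ∀ u ∈ nb G v, kap d q m G u = kap d q m G' u :=
      fun u hu' => congrArg Prod.snd (hu u hu')
    -- class of a pair `a < b` when both ends have the same data
    have key : ∀ a b, a < b → b ∈ nb G a → nb G a = nb G' a → nb G b = nb G' b →
        kap d q m G a = kap d q m G' a → kap d q m G b = kap d q m G' b →
        K G d q (m + 1) a b = K G' d q (m + 1) a b := by
      intro a b hab hmem ha hb hka hkb
      have hO : outs G a = outs G' a := by unfold outs; rw [ha]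
      have hI : ins G b = ins G' b := by unfold ins; rw [hb]
      have hlab : lab G d a b = lab G' d a b := by unfold lab; rw [hO, hI]
      have hOc : ∀ c, (outs G a).filter (fun w => K G d q m a w = c) =
          (outs G' a).filter (fun w => K G' d q m a w = c) := by
        intro c
        rw [← hO]
        apply Finset.filter_congr
        intro w hw
        unfold outs at hw
        rw [Finset.mem_filter] at hw
        have e1 : kap d q m G a w = K G d q m a w := by
          unfold kap; rw [if_pos hw.1, if_pos hw.2]
        have e2 : kap d q m G' a w = K G' d q m a w := by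
          unfold kap; rw [if_pos (ha ▸ hw.1), if_pos hw.2]
        rw [← e1, ← e2, hka]
      have hIc : ∀ c, (ins G b).filter (fun w => K G d q m w b = c) =
          (ins G' b).filter (fun w => K G' d q m w b = c) := by
        intro c
        rw [← hI]
        apply Finset.filter_congr
        intro w hw
        unfold ins at hw
        rw [Finset.mem_filter] at hw
        have e1 : kap d q m G b w = K G d q m w b := by
          unfold kap; rw [if_pos hw.1, if_neg (by omega)]
        have e2 : kap d q m G' b w = K G' d q m w b := by
          unfold kap; rw [if_pos (hb ▸ hw.1), if_neg (by omega)]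
        rw [← e1, ← e2, hkb]
      have hab' : kap d q m G a b = K G d q m a b := by
        unfold kap; rw [if_pos hmem, if_pos hab]
      have hab'' : kap d q m G' a b = K G' d q m a b := by
        unfold kap; rw [if_pos (ha ▸ hmem), if_pos hab]
      simp only [K]
      rw [hlab]
      simp only [hOc, hIc]
      rw [← hab', ← hab'', hka]
    funext w
    by_cases hw : w ∈ nb G v
    · have hw' : w ∈ nb G' v := hnb ▸ hw
      have hne : v ≠ w := by
        rintro rfl
        exact not_mem_nb_self hw
      unfold kap
      rw [if_pos hw, if_pos hw']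
      rcases Nat.lt_or_gt_of_ne hne with h1 | h1
      · rw [if_pos h1, if_pos h1]
        exact key v w h1 hw hnb (hnu w hw) hkv (hku w hw)
      · rw [if_neg (by omega), if_neg (by omega)]
        exact key w v h1 (mem_nb_comm.1 hw) (hnu w hw) hnb (hku w hw) hkv
    · have hw' : w ∉ nb G' v := hnb ▸ hw
      unfold kap
      rw [if_neg hw, if_neg hw']

end HEO70
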