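import Mathlib
import Pool.Agent.HEO70.Classes
import Pool.Agent.HEO70.Analysis

/-!
# The process runs in three rounds per slot
-/

namespace HEO70

open Classical

theorem req_congr {N N' : ℕ → Finset ℕ} {kc kc' : ℕ → ℕ → ℕ} {s s' : St} {c y : ℕ}
    (h1 : N y = N' y) (h2 : kc y = kc' y) (h3 : s.inn y = s'.inn y) (h4 : s.b y = s'.b y)
    (h5 : ∀ x ∈ N y, s.inn x = s'.inn x ∧ s.b x = s'.b x) :
    req N kc s c y = req N' kc' s' c y := by
  have hc : cand N kc s c y = cand N' kc' s' c y := by
    unfold cand
    rw [← h1]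
    apply Finset.filter_congr
    intro x hx
    obtain ⟨e1, e2⟩ := h5 x hx
    unfold exc
    rw [e1, e2, h4, h2]
  have he : exc s y = exc s' y := by
    unfold exc
    rw [h3, h4]
  simp only [req, hc, he]

theorem grant_congr {N N' : ℕ → Finset ℕ} {kc kc' : ℕ → ℕ → ℕ} {s s' : St} {c x : ℕ}
    (h1 : N x = N' x) (h2 : ∀ y ∈ N x, req N kc s c y = req N' kc' s' c y) :
    grant N kc s c x = grant N' kc' s' c x := by
  have hc : rs N kc s c x = rs N' kc' s' c x := by
    unfold rs
    rw [← h1]
    apply Finset.filter_congr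
    intro y hy
    rw [h2 y hy]
  simp only [grant, hc]

theorem inn1_congr {N N' : ℕ → Finset ℕ} {kc kc' : ℕ → ℕ → ℕ} {s s' : St} {c v : ℕ}
    (h1 : N v = N' v) (h2 : grant N kc s c v = grant N' kc' s' c v)
    (h3 : ∀ w ∈ N v, grant N kc s c w = grant N' kc' s' c w)
    (h4 : s.inn v = s'.inn v) :
    inn1 N kc s c v = inn1 N' kc' s' c v := by
  unfold inn1
  rw [h4, h2, ← h1]
  congr 1
  apply Finset.filter_congr
  intro w hw
  rw [h3 w hw]

/-- The process on a network. -/
noncomputable def prc (d q : ℕ) (G : Network) (t : ℕ) : St := sts (nb G) (kap d q (d * d) G) q t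

/-- All that a node knows after slot `t`. -/
noncomputable def know (d q t : ℕ) (G : Network) (v : ℕ) :
    Finset ℕ × (ℕ → ℕ) × Finset ℕ × ℕ :=
  (nb G v, kap d q (d * d) G v, (prc d q G t).inn v, (prc d q G t).b v)

theorem isLocal_know (d q t : ℕ) : IsLocal (d * d + 2 + 3 * t) (know d q t) := by
  induction t with
  | zero =>
    intro G G' v h
    have h1 := (isLocal_nb.mono (show 1 ≤ d * d + 2 + 3 * 0 by omega)) G G' v h
    have h2 := ((isLocal_kap d q (d * d)).mono (show d * d + 2 ≤ d * d + 2 + 3 * 0 by omega))
      G G' v h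
    unfold know
    rw [h1, h2]
    simp only [Prod.mk.injEq, true_and]
    refine ⟨?_, rfl⟩
    show (nb G v).filter (fun w => w < v) = (nb G' v).filter (fun w => w < v)
    rw [h1]
  | succ t ih =>
    -- the requests
    have hreq : IsLocal (d * d + 2 + 3 * t + 1) (fun G v => (know d q t G v,
        req (nb G) (kap d q (d * d) G) (prc d q G t) (t % q) v)) := by
      refine ih.next ?_
      intro G G' v hnb hv hu
      have hv' := hv
      unfold know at hv'
      simp only [Prod.mk.injEq] at hv'
      obtain ⟨a1, a2, a3, a4⟩ := hv'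
      rw [Prod.mk.injEq]
      refine ⟨hv, ?_⟩
      apply req_congr a1 a2 a3 a4
      intro x hx
      have := hu x hx
      unfold know at this
      simp only [Prod.mk.injEq] at this
      exact ⟨this.2.2.1, this.2.2.2⟩
    -- the grants
    have hgr : IsLocal (d * d + 2 + 3 * t + 1 + 1) (fun G v => (know d q t G v,
        grant (nb G) (kap d q (d * d) G) (prc d q G t) (t % q) v)) := by
      refine hreq.next ?_
      intro G G' v hnb hv hu
      rw [Prod.mk.injEq] at hv ⊢
      refine ⟨hv.1, ?_⟩
      apply grant_congr hnb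
      intro y hy
      have := hu y hy
      rw [Prod.mk.injEq] at this
      exact this.2
    -- the new state
    have hnew : IsLocal (d * d + 2 + 3 * t + 1 + 1 + 1) (know d q (t + 1)) := by
      refine hgr.next ?_
      intro G G' v hnb hv hu
      rw [Prod.mk.injEq] at hv
      obtain ⟨hv1, hv2⟩ := hv
      unfold know at hv1
      simp only [Prod.mk.injEq] at hv1
      obtain ⟨a1, a2, a3, a4⟩ := hv1
      have hinn : inn1 (nb G) (kap d q (d * d) G) (prc d q G t) (t % q) v =
          inn1 (nb G') (kap d q (d * d) G') (prc d q G' t) (t % q) v := by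
        apply inn1_congr a1 hv2 _ a3
        intro w hw
        have := hu w hw
        rw [Prod.mk.injEq] at this
        exact this.2
      have hbu : ∀ w ∈ inn1 (nb G') (kap d q (d * d) G') (prc d q G' t) (t % q) v,
          (prc d q G t).b w = (prc d q G' t).b w := by
        intro w hw
        have hwN : w ∈ nb G v := by
          rw [a1]
          unfold inn1 at hw
          rw [Finset.mem_union, Finset.mem_filter, Finset.mem_filter] at hw
          rcases hw with h | h
          · have hg : GoodN (nb G') := ⟨fun u v h => mem_nb_comm.1 h, fun v => not_mem_nb_self⟩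
            exact (inv_sts (kc := kap d q (d * d) G') (q := q) hg t).sub v h.1
          · exact h.1
        have := hu w hwN
        rw [Prod.mk.injEq] at this
        have h1 := this.1
        unfold know at h1
        simp only [Prod.mk.injEq] at h1
        exact h1.2.2.2
      unfold know
      simp only [Prod.mk.injEq]
      refine ⟨a1, a2, hinn, ?_⟩
      show (step (nb G) (kap d q (d * d) G) (prc d q G t) (t % q)).b v =
        (step (nb G') (kap d q (d * d) G') (prc d q G' t) (t % q)).b v
      rw [step_b, step_b, hinn, a4]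
      have hiff : (∀ w ∈ inn1 (nb G') (kap d q (d * d) G') (prc d q G' t) (t % q) v,
          (prc d q G' t).b v ≤ (prc d q G t).b w) ↔
          (∀ w ∈ inn1 (nb G') (kap d q (d * d) G') (prc d q G' t) (t % q) v,
          (prc d q G' t).b v ≤ (prc d q G' t).b w) := by
        constructor
        · intro h w hw
          rw [← hbu w hw]
          exact h w hw
        · intro h w hw
          rw [hbu w hw]
          exact h w hw
      simp only [hiff]
    have e : d * d + 2 + 3 * (t + 1) = d * d + 2 + 3 * t + 1 + 1 + 1 := by ring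
    rw [e]
    exact hnew

/-- The process solves the problem. -/
theorem solvable_of_class (d q : ℕ) (hq : 0 < q) :
    SolvableIn d (d * d + 2 + 3 * (2 * d * (1 + d * (1 + d + q * (2 * d +
      (2 * (2 * d / q + 1)) * (2 * (2 * d / q + 1)) + 1))))) := by
  set D := 2 * (2 * d / q + 1) with hD
  set Ts := 2 * d * (1 + d * (1 + d + q * (2 * d + D * D + 1))) with hTs
  have hloc : IsLocal (d * d + 2 + 3 * Ts) (fun G v => (↑((prc d q G Ts).inn v) : Set ℕ)) := by
    intro G G' v h
    have := isLocal_know d q Ts G G' v h
    unfold know at this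
    simp only [Prod.mk.injEq] at this
    show (↑((prc d q G Ts).inn v) : Set ℕ) = ↑((prc d q G' Ts).inn v)
    rw [this.2.2.1]
  obtain ⟨A, hA⟩ := exists_algorithm_of_local hloc
  refine ⟨A, ?_⟩
  intro G hG
  have hd : ∀ v, (nb G v).card ≤ d := fun v => card_nb (hG v)
  have hgood : GoodN (nb G) := ⟨fun u v h => mem_nb_comm.1 h, fun v => not_mem_nb_self⟩
  have hI := inv_sts (kc := kap d q (d * d) G) (q := q) hgood Ts
  have hclass : ∀ v c, c < q → ((nb G v).filter (fun w => kap d q (d * d) G v w = c)).card ≤ D :=
    fun v c hc => class_card hd hq v c hc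
  have hcomm : ∀ v w, w ∈ nb G v → kap d q (d * d) G v w = kap d q (d * d) G w v :=
    fun v w h => kap_comm h
  have hlt : ∀ v w, w ∈ nb G v → kap d q (d * d) G v w < q := fun v w h => kap_lt hd hq h
  have hhappy := happy_at hgood hclass hcomm hq hd hlt Ts (le_of_eq hTs.symm)
  have hfun : (fun v => A.out (A.run G (d * d + 2 + 3 * Ts) v)) =
      fun v => (↑((prc d q G Ts).inn v) : Set ℕ) := by
    funext v
    exact hA G v
  rw [hfun]
  refine ⟨?_, ?_, ?_⟩
  · intro u v huv
    have h1 := hI.sub v (Finset.mem_coe.1 huv)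
    exact (mem_nb.1 h1).symm
  · intro u v huv
    have h1 : u ∈ nb G v := mem_nb.2 huv.symm
    have h2 := hI.ori u v h1
    rw [Finset.mem_coe, Finset.mem_coe]
    exact h2
  · intro u v huv
    rw [Set.ncard_coe_finset, Set.ncard_coe_finset]
    exact hhappy u v (Finset.mem_coe.1 huv)

end HEO70
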