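import Mathlib
import Pool.Agent.HEO70.Locality

/-!
# Happy edge orientations in `O(Δ ^ (7 / 2))` rounds of the deterministic LOCAL model

The algorithm does not use the number of nodes, and works for arbitrary distinct identifiers.
-/

namespace HEO70.SevenHalves

open HEO70

/-- The deterministic round complexity of happy edge orientations on networks of maximum degree at
most `Δ`. -/
noncomputable def roundComplexity (Δ : ℕ) : ℕ := sInf {T : ℕ | SolvableIn Δ T}

theorem solvable_zero : SolvableIn 0 0 := by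
  have hloc : IsLocal 0 (fun (_ : Network) (_ : ℕ) => (∅ : Set ℕ)) := fun _ _ _ _ => rfl
  obtain ⟨A, hA⟩ := exists_algorithm_of_local hloc
  refine ⟨A, ?_⟩
  intro G hG
  have hno : ∀ u v, ¬ G.graph.Adj u v := by
    intro u v h
    have h1 := card_nb (hG u)
    have h2 : v ∈ nb G u := mem_nb.2 h
    have h3 := Finset.card_pos.2 ⟨v, h2⟩
    omega
  have hfun : (fun v => A.out (A.run G 0 v)) = fun _ => (∅ : Set ℕ) := by
    funext v
    exact hA G v
  rw [hfun]
  refine ⟨?_, ?_, ?_⟩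
  · intro u v h
    exact absurd h (Set.notMem_empty _)
  · intro u v h
    exact absurd h (hno u v)
  · intro u v h
    exact absurd h (Set.notMem_empty _)

theorem nat_bound {d q : ℕ} (hd : 1 ≤ d) (hq : 1 ≤ q) (hdq : d < q * q) :
    d * d + 2 + 3 * (2 * d * (1 + d * (1 + d + q * (2 * d +
      (2 * (2 * d / q + 1)) * (2 * (2 * d / q + 1)) + 1)))) ≤ 255 * (d * d * (q * q * q)) := by
  have h1 : 2 * d / q ≤ 2 * q := by
    apply Nat.div_le_of_le_mul
    nlinarith
  have h2 : 2 * (2 * d / q + 1) ≤ 6 * q := by omega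
  have h3 : (2 * (2 * d / q + 1)) * (2 * (2 * d / q + 1)) ≤ 36 * (q * q) := by
    calc _ ≤ (6 * q) * (6 * q) := Nat.mul_le_mul h2 h2
      _ = 36 * (q * q) := by ring
  have hqq : 1 ≤ q * q := by nlinarith
  have hq2 : q ≤ q * q := by nlinarith
  have hqqq : q * q ≤ q * q * q := by nlinarith
  have h4 : 1 + d + q * (2 * d + (2 * (2 * d / q + 1)) * (2 * (2 * d / q + 1)) + 1) ≤
      41 * (q * q * q) := by
    have h5 : 2 * d + (2 * (2 * d / q + 1)) * (2 * (2 * d / q + 1)) + 1 ≤ 39 * (q * q) := by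
      omega
    have h6 : q * (2 * d + (2 * (2 * d / q + 1)) * (2 * (2 * d / q + 1)) + 1) ≤
        q * (39 * (q * q)) := Nat.mul_le_mul_left _ h5
    have h7 : q * (39 * (q * q)) = 39 * (q * q * q) := by ring
    omega
  have h8 : d * (1 + d + q * (2 * d + (2 * (2 * d / q + 1)) * (2 * (2 * d / q + 1)) + 1)) ≤
      41 * (d * (q * q * q)) := by
    calc _ ≤ d * (41 * (q * q * q)) := Nat.mul_le_mul_left _ h4
      _ = 41 * (d * (q * q * q)) := by ring
  have h9 : 1 ≤ d * (q * q * q) := by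
    have : 0 < d * (q * q * q) := by positivity
    omega
  have h10 : 2 * d * (1 + d * (1 + d + q * (2 * d +
      (2 * (2 * d / q + 1)) * (2 * (2 * d / q + 1)) + 1))) ≤
      2 * d * (42 * (d * (q * q * q))) := by
    apply Nat.mul_le_mul_left
    omega
  have h11 : 2 * d * (42 * (d * (q * q * q))) = 84 * (d * d * (q * q * q)) := by ring
  have h12 : d * d ≤ d * d * (q * q * q) := by
    have : 1 ≤ q * q * q := by omega
    exact Nat.le_mul_of_pos_right _ this
  have h13 : 1 ≤ d * d := by nlinarith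
  omega

/-- For every `Δ` happy edge orientations of networks of maximum degree at most `Δ` can be found by
a deterministic algorithm of the LOCAL model, and its round complexity is at most
`2040 * Δ ^ (7 / 2)`. -/
theorem result (Δ : ℕ) : (∃ T : ℕ, SolvableIn Δ T) ∧
    (roundComplexity Δ : ℝ) ≤ 2040 * (Δ : ℝ) ^ (7 / 2 : ℝ) := by
  have key : ∃ T : ℕ, SolvableIn Δ T ∧ (T : ℝ) ≤ 2040 * (Δ : ℝ) ^ (7 / 2 : ℝ) := by
    rcases Nat.eq_zero_or_pos Δ with h0 | hpos
    · subst h0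
      refine ⟨0, solvable_zero, ?_⟩
      have : (0 : ℝ) ≤ ((0 : ℕ) : ℝ) ^ (7 / 2 : ℝ) := by positivity
      simpa using this
    · set q := Nat.sqrt Δ + 1 with hq
      have hq1 : 1 ≤ q := by omega
      have hdq : Δ < q * q := Nat.lt_succ_sqrt Δ
      refine ⟨_, solvable_of_class Δ q hq1, ?_⟩
      have h1 := nat_bound hpos hq1 hdq
      have h2 : ((Δ * Δ + 2 + 3 * (2 * Δ * (1 + Δ * (1 + Δ + q * (2 * Δ +
        (2 * (2 * Δ / q + 1)) * (2 * (2 * Δ / q + 1)) + 1)))) : ℕ) : ℝ) ≤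
        ((255 * (Δ * Δ * (q * q * q)) : ℕ) : ℝ) := by exact_mod_cast h1
      refine le_trans h2 ?_
      have hΔ1 : (1 : ℝ) ≤ (Δ : ℝ) := by exact_mod_cast hpos
      have hsq : (Nat.sqrt Δ : ℝ) ≤ Real.sqrt Δ := Real.nat_sqrt_le_real_sqrt
      have h1s : (1 : ℝ) ≤ Real.sqrt Δ := by
        rw [Real.one_le_sqrt]
        exact hΔ1
      have hq2 : (q : ℝ) ≤ 2 * Real.sqrt Δ := by
        rw [hq]
        push_cast
        linarith
      have hq0 : (0 : ℝ) ≤ (q : ℝ) := by positivity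
      have hs0 : (0 : ℝ) ≤ Real.sqrt Δ := Real.sqrt_nonneg _
      have hcube : (q : ℝ) * q * q ≤ 8 * (Real.sqrt Δ * Real.sqrt Δ * Real.sqrt Δ) := by
        have e1 : (q : ℝ) * q ≤ (2 * Real.sqrt Δ) * (2 * Real.sqrt Δ) :=
          mul_le_mul hq2 hq2 hq0 (by positivity)
        have e2 : (q : ℝ) * q * q ≤ (2 * Real.sqrt Δ) * (2 * Real.sqrt Δ) * (2 * Real.sqrt Δ) :=
          mul_le_mul e1 hq2 hq0 (by positivity)
        calc (q : ℝ) * q * q ≤ _ := e2
          _ = 8 * (Real.sqrt Δ * Real.sqrt Δ * Real.sqrt Δ) := by ring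
      have hpow : (Δ : ℝ) ^ (7 / 2 : ℝ) =
          (Δ : ℝ) * Δ * (Real.sqrt Δ * Real.sqrt Δ * Real.sqrt Δ) := by
        have hΔ0 : (0 : ℝ) < (Δ : ℝ) := by linarith
        have e1 : Real.sqrt Δ * Real.sqrt Δ = (Δ : ℝ) := Real.mul_self_sqrt hΔ0.le
        rw [e1, Real.sqrt_eq_rpow, show (7 / 2 : ℝ) = 1 + 1 + 1 + 1 / 2 by norm_num,
          Real.rpow_add hΔ0, Real.rpow_add hΔ0, Real.rpow_add hΔ0, Real.rpow_one]
        ring
      rw [hpow]
      push_cast
      have hΔΔ : (0 : ℝ) ≤ (Δ : ℝ) * Δ := by positivity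
      calc 255 * ((Δ : ℝ) * Δ * (q * q * q))
          ≤ 255 * ((Δ : ℝ) * Δ * (8 * (Real.sqrt Δ * Real.sqrt Δ * Real.sqrt Δ))) := by
            apply mul_le_mul_of_nonneg_left _ (by norm_num)
            exact mul_le_mul_of_nonneg_left hcube hΔΔ
        _ = 2040 * ((Δ : ℝ) * Δ * (Real.sqrt Δ * Real.sqrt Δ * Real.sqrt Δ)) := by ring
  obtain ⟨T, hT, hT'⟩ := key
  refine ⟨⟨T, hT⟩, ?_⟩
  have hle : roundComplexity Δ ≤ T := Nat.sInf_le hT
  calc (roundComplexity Δ : ℝ) ≤ (T : ℝ) := by exact_mod_cast hle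
    _ ≤ _ := hT'

end HEO70.SevenHalves
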